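import Pool.Graph.R_seed8.Y279.BepsU

set_option autoImplicit false

namespace Pool.Agent.H74.BE

open Pool.Agent.Helper579.Beps Pool.Agent.Helper149.Beps Pool.Agent.Y279.BepsU

/-- The basis of the example fails the upper 2-estimate. -/
theorem far_basis (g : ℕ → ℕ) (C : ℝ) : ∃ (s : Finset ℕ) (t : ℕ → ℝ), ∑ i ∈ s, t i ^ 2 ≤ 1 ∧
    C ≤ ‖∑ i ∈ s, t i • ub g i‖ := by
  obtain ⟨s, t, hs, h⟩ := far_vec g (C ^ 2)
  refine ⟨s, t, hs.le, ?_⟩
  have h1 := h (fun _ => 1) (fun _ => Or.inl rfl)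
  have h2 : ∑ i ∈ s, (1 : ℝ) • ee g i (t i) = ∑ i ∈ s, t i • ee g i 1 := by
    apply Finset.sum_congr rfl
    intro i _
    rw [one_smul]
    show (Finsupp.single i (t i) : ℕ →₀ ℝ) = t i • (Finsupp.single i (1 : ℝ) : ℕ →₀ ℝ)
    rw [Finsupp.smul_single, smul_eq_mul, mul_one]
  rw [h2, ← norm_sq_X0] at h1
  rw [ub_sum, UniformSpace.Completion.norm_coe]
  by_contra hcon
  push Not at hcon
  have h3 := norm_nonneg (∑ i ∈ s, t i • ee g i 1)
  nlinarith

/-- The example, with its unconditional basis, which fails the upper 2-estimate. -/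
theorem main_basis' : ∃ (X : Type) (_ : NormedAddCommGroup X) (_ : NormedSpace ℝ X)
    (_ : CompleteSpace X) (e : ℕ → X),
      (∀ i, ‖e i‖ = 1) ∧
      (∀ s t : Finset ℕ, s ⊆ t → ∀ a b : ℕ → ℝ, (∀ i ∈ s, |a i| ≤ |b i|) →
        ‖∑ j ∈ s, a j • e j‖ ≤ ‖∑ j ∈ t, b j • e j‖) ∧
      Dense (Submodule.span ℝ (Set.range e) : Set X) ∧
      QStar (WithLp 2 (X × X)) 861 ∧
      QStar (WithLp 2 (WithLp 2 (X × X) × WithLp 2 (X × X))) 861 ∧ FarFromTwo X ∧
      ∀ C : ℝ, ∃ (s : Finset ℕ) (t : ℕ → ℝ), ∑ i ∈ s, t i ^ 2 ≤ 1 ∧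
        C ≤ ‖∑ i ∈ s, t i • e i‖ := by
  obtain ⟨R, hR⟩ := abs_main
  let R2 : ℕ → ℕ := fun j => max (R j) (max (R (2 * j)) (R (2 * j + 1)))
  let g : ℕ → ℕ := fun K => 5 ^ (R2 K)
  have h1 : IsSlow1 (X0 g) R2 := slow1_X0 g R2 (fun K => le_rfl)
  have h2 : IsSlow (WithLp 2 (X0 g × X0 g)) R2 := slow_prod R2 h1
  have h3 := slow_half R2 h2
  have h4 : ∀ K, R K ≤ R2 (K / 2) := by
    intro K
    rcases Nat.even_or_odd' K with ⟨r, hr | hr⟩
    · have : K / 2 = r := by omega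
      rw [this, hr]
      exact (le_max_left _ _).trans (le_max_right _ _)
    · have : K / 2 = r := by omega
      rw [this, hr]
      exact (le_max_right _ _).trans (le_max_right _ _)
  have h5 := slow_mono h3 h4
  obtain ⟨J, hJ⟩ := dense_prod (X0 g)
  obtain ⟨J2, hJ2⟩ := dense_prod_gen J hJ
  refine ⟨UniformSpace.Completion (X0 g), inferInstance, inferInstance, inferInstance, ub g,
    norm_ub g, ub_mono g, ub_dense g, ?_, ?_, ?_, far_basis g⟩
  · have := qstar_dense J hJ 215 (by norm_num) (hR _ (slow_mono h2 (fun K => le_max_left _ _)))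
    norm_num at this
    exact this
  · have := qstar_dense J2 hJ2 215 (by norm_num) (hR _ h5)
    norm_num at this
    exact this
  · exact far_completion (far_X0 g)

/-- `FarFromTwo` contradicts infratype 2. -/
theorem far_not_infratype {X : Type} [NormedAddCommGroup X] [NormedSpace ℝ X] (h : FarFromTwo X) :
    ¬ ∃ C : ℝ, ∀ (n : ℕ) (x : Fin n → X), ∃ ε : Fin n → Bool,
      ‖∑ i, (if ε i then x i else -x i)‖ ≤ C * √(∑ i, ‖x i‖ ^ 2) := by
  rintro ⟨C, hC⟩
  obtain ⟨s, x, hs, hx⟩ := h (C ^ 2 + 1)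
  let e : s ≃ Fin s.card := s.equivFin
  obtain ⟨ε, hε⟩ := hC s.card (fun i => x (e.symm i))
  have h2 : ∑ i : Fin s.card, ‖x (e.symm i)‖ ^ 2 = ∑ i ∈ s, ‖x i‖ ^ 2 := by
    rw [← Finset.sum_coe_sort s (fun i => ‖x i‖ ^ 2)]
    exact Equiv.sum_comp e.symm (fun i : s => ‖x i‖ ^ 2)
  have h3 : C ^ 2 + 1 ≤ ‖∑ i, (if ε i then x (e.symm i) else -x (e.symm i))‖ ^ 2 := by
    let η : ℕ → ℝ := fun i => if h : i ∈ s then (if ε (e ⟨i, h⟩) then 1 else -1) else 1
    have h4 := hx η (by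
      intro i
      simp only [η]
      split_ifs <;> simp)
    have h5 : ∑ i ∈ s, η i • x i = ∑ i, (if ε i then x (e.symm i) else -x (e.symm i)) := by
      rw [← Finset.sum_coe_sort s (fun i => η i • x i),
        ← Equiv.sum_comp e.symm (fun i : s => η i • x i)]
      apply Finset.sum_congr rfl
      intro i _
      have h6 : η (e.symm i : ℕ) = if ε i then 1 else -1 := by
        simp only [η]
        rw [dif_pos (e.symm i).2]
        simp
      rw [h6]
      split_ifs <;> simp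
    rw [← h5]
    exact h4
  rw [h2] at hε
  have h9 : C * √(∑ i ∈ s, ‖x i‖ ^ 2) ≤ |C| := by
    have h10 : √(∑ i ∈ s, ‖x i‖ ^ 2) ≤ 1 := Real.sqrt_le_one.mpr hs
    have h11 := Real.sqrt_nonneg (∑ i ∈ s, ‖x i‖ ^ 2)
    calc C * √(∑ i ∈ s, ‖x i‖ ^ 2) ≤ |C| * √(∑ i ∈ s, ‖x i‖ ^ 2) :=
          mul_le_mul_of_nonneg_right (le_abs_self C) h11
      _ ≤ |C| * 1 := mul_le_mul_of_nonneg_left h10 (abs_nonneg C)
      _ = |C| := mul_one _
  have h12 := hε.trans h9
  have h13 := norm_nonneg (∑ i, (if ε i then x (e.symm i) else -x (e.symm i)))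
  have h14 := sq_abs C
  nlinarith [abs_nonneg C]

section cplx
variable {X : Type} [NormedAddCommGroup X] [NormedSpace ℝ X]

theorem inX_add (x y : X) : inX (x + y) = inX x + inX y := by
  refine XC.ext fun w => ?_
  rw [XC.ev_add, inX_ev, inX_ev, inX_ev, smul_add]

theorem inX_smul (r : ℝ) (x : X) : inX (r • x) = (r : ℂ) • inX x := by
  refine XC.ext fun w => ?_
  rw [XC.ev_smul, XC.ev_real_smul, inX_ev, inX_ev, smul_comm]

theorem inX_span (T : XC X) : ∃ x y : X, T = inX x + Complex.I • inX y := by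
  refine ⟨T.ev 1, -T.ev Complex.I, XC.ext fun w => ?_⟩
  rw [XC.ev_add, XC.ev_smul, inX_ev, inX_ev]
  have h1 : T.ev w = w.re • T.ev 1 + w.im • T.ev Complex.I := by
    rw [← XC.ev_real_smul, ← XC.ev_real_smul, ← XC.ev_add_right]
    congr 1
    rw [mul_one]
    exact (Complex.re_add_im w).symm
  rw [h1]
  simp

theorem inX_indep (x y : X) (h : inX x + Complex.I • inX y = 0) : x = 0 ∧ y = 0 := by
  have h1 := congrArg (fun T : XC X => T.ev 1) h
  have h2 := congrArg (fun T : XC X => T.ev Complex.I) h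
  simp only [XC.ev_add, XC.ev_smul, inX_ev, XC.ev_zero] at h1 h2
  simp at h1 h2
  exact ⟨h1, h2⟩

end cplx

end Pool.Agent.H74.BE
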